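import Pool.Agent.Lib.MP_b538eb_ag.Main

set_option autoImplicit false

open Polynomial Finset

namespace Pool.Agent.Lib.MP_b538eb_ag

/-- A cofinite set of natural exponents. -/
structure Ma where
  S : ℤ → Prop
  c : ℕ
  h0 : ∀ t, S t → 0 ≤ t
  hc : ∀ t, (c : ℤ) ≤ t → S t

namespace Ma

variable (M : Ma)

open Classical in
/-- The forced roots in weight `k`. -/
noncomputable def Z (k : ℤ) : Finset ℤ := (Ico k M.c).filter fun t => M.S (t - k) ∧ ¬ M.S t

variable {M}

theorem mem_Z {k t : ℤ} : t ∈ M.Z k ↔ M.S (t - k) ∧ ¬ M.S t := by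
  simp only [Z, mem_filter, mem_Ico, and_iff_right_iff_imp]
  rintro ⟨h1, h2⟩
  have := M.h0 _ h1
  exact ⟨by omega, not_le.1 fun h => h2 (M.hc t h)⟩

theorem Z_zero : M.Z 0 = ∅ := eq_empty_of_forall_notMem fun t h => by
  rw [mem_Z, sub_zero] at h; exact h.2 h.1

theorem card_Z_add (k l : ℤ) : (M.Z (k + l)).card ≤ (M.Z k).card + (M.Z l).card := by
  have : M.Z (k + l) ⊆ M.Z k ∪ (M.Z l).image (· + k) := by
    intro t ht
    rw [mem_Z] at ht
    by_cases h : M.S (t - k)
    · exact mem_union_left _ (mem_Z.2 ⟨h, ht.2⟩)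
    · exact mem_union_right _ (mem_image.2 ⟨t - k, mem_Z.2 ⟨by rw [sub_sub]; exact ht.1, h⟩, by ring⟩)
  exact (card_le_card this).trans ((card_union_le _ _).trans (Nat.add_le_add_left card_image_le _))

theorem nonneg_of_ok {k : ℤ} {m : ℕ} (h : (M.Z k).card ≤ m) : 0 ≤ k + m := by
  classical
  by_contra hk
  let B : Finset ℤ := (Ico (0 : ℤ) M.c).filter M.S
  have h1 : (B ∪ Ico (M.c : ℤ) (M.c - k)).image (· + k) ⊆ M.Z k ∪ B := by
    intro t ht
    obtain ⟨s, hs, rfl⟩ := mem_image.1 ht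
    have hs' : M.S s ∧ s < M.c - k := by
      rcases mem_union.1 hs with hs | hs
      · have := mem_filter.1 hs
        exact ⟨this.2, by have := mem_Ico.1 this.1; omega⟩
      · exact ⟨M.hc _ (mem_Ico.1 hs).1, (mem_Ico.1 hs).2⟩
    by_cases h2 : M.S (s + k)
    · exact mem_union_right _ (mem_filter.2 ⟨mem_Ico.2 ⟨M.h0 _ h2, by omega⟩, h2⟩)
    · exact mem_union_left _ (mem_Z.2 ⟨by simpa using hs'.1, h2⟩)
  have h2 := (card_le_card h1).trans (card_union_le _ _)
  rw [card_image_of_injective _ (add_left_injective k), card_union_of_disjoint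
    (disjoint_left.2 fun t h h' => by
      have := mem_Ico.1 (mem_filter.1 h).1
      have := mem_Ico.1 h'
      omega), Int.card_Ico] at h2
  omega

theorem card_Z_neg {j : ℕ} (hj : 0 < j) (h : ∀ t, M.S t → M.S (t + j)) :
    (M.Z (-(j : ℤ))).card ≤ j := by
  have up : ∀ (n : ℕ) t, M.S t → M.S (t + j * n) := by
    intro n t ht
    induction n with
    | zero => simpa using ht
    | succ n ih => have := h _ ih; rwa [show t + j * n + j = t + j * (n + 1 : ℕ) by push_cast; ring] at this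
  have key : ∀ a b, a ∈ M.Z (-(j : ℤ)) → b ∈ M.Z (-(j : ℤ)) → a % j = b % j → ¬ a < b := by
    intro a b ha hb e l
    obtain ⟨n, hn⟩ := Int.ModEq.dvd e
    have hn0 : 0 < n := by
      by_contra h0
      have : (j : ℤ) * n ≤ 0 := mul_nonpos_of_nonneg_of_nonpos (by omega) (by omega)
      omega
    have := up (n - 1).toNat _ (mem_Z.1 ha).1
    rw [Int.toNat_of_nonneg (by omega), show a - -(j : ℤ) + j * (n - 1) = b by linear_combination -hn]
      at this
    exact (mem_Z.1 hb).2 this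
  have := card_le_card_of_injOn (s := M.Z (-(j : ℤ))) (t := Ico (0 : ℤ) j) (fun t => t % j)
    (fun t _ => mem_coe.2 (mem_Ico.2 ⟨Int.emod_nonneg _ (by omega), Int.emod_lt_of_pos _ (by omega)⟩))
    (fun a ha b hb e => le_antisymm (not_lt.1 (key b a hb ha e.symm)) (not_lt.1 (key a b ha hb e)))
  simpa using this

theorem ok_of_big {a b : ℕ} (h : 2 * M.c ≤ a ∨ 2 * M.c ≤ b) : (M.Z ((b : ℤ) - a)).card ≤ a := by
  have h1 : (M.Z ((b : ℤ) - a)).card ≤ ((M.c : ℤ) - (b - a)).toNat := by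
    classical
    rw [← Int.card_Ico]; exact card_filter_le _ _
  by_cases h2 : a ≤ b
  · have h3 : (M.Z ((b : ℤ) - a)).card ≤ M.c := by omega
    omega
  by_cases h3 : M.c ≤ b
  · omega
  have h4 := card_Z_neg (M := M) (j := a - b) (by omega) fun t ht =>
    M.hc _ (by have := M.h0 t ht; omega)
  rw [show -((a - b : ℕ) : ℤ) = (b : ℤ) - a by omega] at h4
  omega

variable (M)

/-- The allowed monomials. -/
def ok (e : Fin 2 →₀ ℕ) : Prop := (M.Z ((e 1 : ℤ) - e 0)).card ≤ e 0

/-- Polynomials spanned by the allowed monomials. -/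
noncomputable def Rr : Subalgebra ℂ P where
  carrier := {f | ∀ e : Fin 2 →₀ ℕ, ¬ M.ok e → MvPolynomial.coeff e f = 0}
  mul_mem' := by
    intro f g hf hg e he
    rw [MvPolynomial.coeff_mul]
    refine sum_eq_zero fun x hx => ?_
    have hx := mem_antidiagonal.1 hx
    by_cases h : M.ok x.1
    swap
    · rw [hf _ h, zero_mul]
    rw [hg _ fun h' => he ?_, mul_zero]
    have := card_Z_add (M := M) ((x.1 1 : ℤ) - x.1 0) ((x.2 1 : ℤ) - x.2 0)
    rw [← hx]
    simp only [ok, Finsupp.add_apply] at h h' ⊢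
    rw [show ((x.1 1 + x.2 1 : ℕ) : ℤ) - (x.1 0 + x.2 0 : ℕ) =
      (x.1 1 : ℤ) - x.1 0 + ((x.2 1 : ℤ) - x.2 0) by push_cast; ring]
    omega
  add_mem' := by
    intro f g hf hg e he
    rw [MvPolynomial.coeff_add, hf e he, hg e he, add_zero]
  algebraMap_mem' := by
    intro c e he
    rw [MvPolynomial.algebraMap_eq, MvPolynomial.coeff_C, if_neg]
    rintro rfl
    exact he (by simp [ok, Z_zero])

/-- Allowed coefficients in weight `k` and order at most `m`. -/
noncomputable def Fk (k : ℤ) (m : ℕ) : Submodule ℂ ℂ[X] where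
  carrier := {p | p.natDegree ≤ m ∧ ∀ t : ℤ, M.S (t - k) → ¬ M.S t → p.eval (t : ℂ) = 0}
  add_mem' := by
    rintro p q ⟨hp, hp'⟩ ⟨hq, hq'⟩
    exact ⟨natDegree_add_le_of_degree_le hp hq, fun t h h' => by simp [hp' t h h', hq' t h h']⟩
  zero_mem' := ⟨by simp, fun _ _ _ => by simp⟩
  smul_mem' := by
    rintro c p ⟨hp, hp'⟩
    exact ⟨(natDegree_smul_le c p).trans hp, fun t h h' => by simp [hp' t h h']⟩

/-- Differential operators on the cusp of order at most `m`. -/
noncomputable def F (m : ℕ) : Submodule ℂ D where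
  carrier := {a | ∀ k, a.coeff (g k) ∈ M.Fk k m}
  add_mem' := fun ha hb k => by
    rw [SkewMonoidAlgebra.coeff_add]; exact add_mem (ha k) (hb k)
  zero_mem' := fun k => zero_mem _
  smul_mem' := fun c a ha k => by
    rw [SkewMonoidAlgebra.coeff_smul]; exact Submodule.smul_mem _ c (ha k)

variable {M}

theorem T_mem {k : ℤ} {m : ℕ} {p : ℂ[X]} (h : p ∈ M.Fk k m) : T k p ∈ M.F m := fun l => by
  rw [coeff_T]
  split_ifs with h'
  · exact h' ▸ h
  · exact zero_mem _

theorem F_ind {m : ℕ} {Q : D → Prop} (h0 : Q 0) (hadd : ∀ a b, Q a → Q b → Q (a + b))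
    (hT : ∀ k p, p ∈ M.Fk k m → Q (T k p)) {a : D} (ha : a ∈ M.F m) : Q a := by
  rw [← SkewMonoidAlgebra.sum_single a, SkewMonoidAlgebra.sum_def']
  exact Finset.sum_induction _ _ hadd h0 fun x _ => hT (w x) _ (ha (w x))

theorem Fk_mul {k l : ℤ} {m n : ℕ} {p q : ℂ[X]} (hp : p ∈ M.Fk k m) (hq : q ∈ M.Fk l n) :
    p * taylor (-(k : ℂ)) q ∈ M.Fk (k + l) (m + n) := by
  refine ⟨natDegree_mul_le.trans (add_le_add hp.1 (by rw [natDegree_taylor]; exact hq.1)),
    fun t h h' => ?_⟩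
  rw [eval_mul, taylor_eval]
  by_cases h2 : M.S (t - k)
  · rw [hp.2 t h2 h', zero_mul]
  · have := hq.2 (t - k) (by rwa [sub_sub]) h2
    push_cast at this
    rw [← sub_eq_add_neg, this, mul_zero]

theorem F_mul (m n : ℕ) (a b : D) (ha : a ∈ M.F m) (hb : b ∈ M.F n) : a * b ∈ M.F (m + n) := by
  refine F_ind (Q := fun a => a * b ∈ M.F (m + n)) (by simp) (fun a a' h h' => ?_)
    (fun k p hp => ?_) ha
  · rw [add_mul]; exact add_mem h h'
  refine F_ind (Q := fun b => T k p * b ∈ M.F (m + n)) (by simp) (fun a a' h h' => ?_)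
    (fun l q hq => ?_) hb
  · rw [mul_add]; exact add_mem h h'
  · rw [T_mul]; exact T_mem (Fk_mul hp hq)

theorem eq_zero_of_not {k : ℤ} {m : ℕ} {p : ℂ[X]} (hp : p ∈ M.Fk k m)
    (h : ¬ ((M.Z k).card ≤ m)) : p = 0 := by
  rw [not_le] at h
  refine eq_zero_of_natDegree_lt_card_of_eval_eq_zero' p ((M.Z k).image Int.cast) ?_ ?_
  · intro z hz
    obtain ⟨t, ht, rfl⟩ := mem_image.1 hz
    exact hp.2 t (mem_Z.1 ht).1 (mem_Z.1 ht).2
  · rw [card_image_of_injective _ Int.cast_injective]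
    exact hp.1.trans_lt h

variable (M) in
/-- A monic allowed coefficient. -/
noncomputable def gp (k : ℤ) (m : ℕ) : ℂ[X] :=
  (∏ t ∈ M.Z k, (X - C (t : ℂ))) * X ^ (m - (M.Z k).card)

theorem gp_spec {k : ℤ} {m : ℕ} (h : (M.Z k).card ≤ m) :
    M.gp k m ∈ M.Fk k m ∧ (M.gp k m).coeff m = 1 := by
  have hm : (∏ t ∈ M.Z k, (X - C (t : ℂ))).Monic := monic_prod_of_monic _ _ fun t _ => monic_X_sub_C _
  have hm' : (M.gp k m).Monic := hm.mul (monic_X_pow _)
  have hd : (M.gp k m).natDegree = m := by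
    rw [gp, hm.natDegree_mul (monic_X_pow _), natDegree_prod_of_monic _ _
      fun t _ => monic_X_sub_C _]
    simp only [natDegree_X_sub_C, sum_const, smul_eq_mul, mul_one, natDegree_X_pow]
    omega
  refine ⟨⟨hd.le, fun t h1 h2 => ?_⟩, ?_⟩
  · rw [gp, eval_mul, eval_prod, prod_eq_zero (mem_Z.2 ⟨h1, h2⟩) (by simp), zero_mul]
  · have := hm'.coeff_natDegree
    rwa [hd] at this

theorem σ'_mem {m : ℕ} {a : D} (ha : a ∈ M.F m) : σ' m a ∈ M.Rr := by
  refine F_ind (Q := fun a => σ' m a ∈ M.Rr) (by simp) (fun a a' h h' => ?_) (fun k p hp => ?_) ha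
  · rw [map_add]; exact add_mem h h'
  · intro e he
    rw [σ'_T, MvPolynomial.coeff_monomial]
    split_ifs with h
    · subst h
      rw [eq_zero_of_not hp (fun h1 => he (by
        have := nonneg_of_ok h1
        simp only [ok, ex_zero, ex_one]
        rwa [show (((k + m).toNat : ℕ) : ℤ) - m = k by omega])), coeff_zero]
    · rfl

theorem σ'_succ (m : ℕ) (a : D) (ha : a ∈ M.F m) : σ' (m + 1) a = 0 := by
  refine F_ind (Q := fun a => σ' (m + 1) a = 0) (by simp) (fun a a' h h' => ?_)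
    (fun k p hp => ?_) ha
  · rw [map_add, h, h', add_zero]
  · rw [σ'_T, coeff_eq_zero_of_natDegree_lt (Nat.lt_succ_of_le hp.1), map_zero]

theorem σ'_mul (m n : ℕ) (a b : D) (ha : a ∈ M.F m) (hb : b ∈ M.F n) :
    σ' (m + n) (a * b) = σ' m a * σ' n b := by
  refine F_ind (Q := fun a => σ' (m + n) (a * b) = σ' m a * σ' n b) (by simp)
    (fun a a' h h' => ?_) (fun k p hp => ?_) ha
  · rw [add_mul, map_add, h, h', map_add, add_mul]
  refine F_ind (Q := fun b => σ' (m + n) (T k p * b) = σ' m (T k p) * σ' n b) (by simp)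
    (fun a a' h h' => ?_) (fun l q hq => ?_) hb
  · rw [mul_add, map_add, h, h', map_add, mul_add]
  by_cases h1 : (M.Z k).card ≤ m
  swap
  · simp [eq_zero_of_not hp h1]
  by_cases h2 : (M.Z l).card ≤ n
  swap
  · simp [eq_zero_of_not hq h2]
  have n1 := nonneg_of_ok h1
  have n2 := nonneg_of_ok h2
  have h3 : (taylor (-(k : ℂ)) q).coeff n = q.coeff n := by
    have := coeff_taylor_top hq.1 (-(k : ℂ)) n (by omega)
    rwa [coeff_eq_zero_of_natDegree_lt (Nat.lt_succ_of_le hq.1), mul_zero, coeff_sub,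
      sub_eq_zero] at this
  rw [T_mul, σ'_T, σ'_T, σ'_T, MvPolynomial.monomial_mul,
    coeff_mul_add_eq_of_natDegree_le hp.1 (by rw [natDegree_taylor]; exact hq.1), h3]
  congr 2
  refine fin2_ext (by simp) ?_
  simp only [ex_one, Finsupp.add_apply]
  push_cast
  omega

theorem coeff_σ' {m : ℕ} {a : D} (ha : a ∈ M.F m) (k : ℤ) (hk : 0 ≤ k + m) :
    MvPolynomial.coeff (ex k m) (σ' m a) = (a.coeff (g k)).coeff m := by
  refine F_ind (Q := fun a => MvPolynomial.coeff (ex k m) (σ' m a) = (a.coeff (g k)).coeff m)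
    (by simp) (fun a a' h h' => ?_) (fun l p hp => ?_) ha
  · rw [map_add, MvPolynomial.coeff_add, h, h', SkewMonoidAlgebra.coeff_add, Finsupp.add_apply,
      coeff_add]
  by_cases h1 : (M.Z l).card ≤ m
  swap
  · simp [eq_zero_of_not hp h1]
  have n1 := nonneg_of_ok h1
  rw [σ'_T, MvPolynomial.coeff_monomial, coeff_T]
  by_cases h : l = k
  · simp [h]
  · rw [if_neg h, if_neg, coeff_zero]
    intro h'
    have := DFunLike.congr_fun h' 1
    simp only [ex_one] at this
    omega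

theorem top_zero {m : ℕ} {a : D} (ha : a ∈ M.F m) (h : σ' m a = 0) (k : ℤ) :
    (a.coeff (g k)).coeff m = 0 := by
  by_cases hk : 0 ≤ k + m
  · rw [← coeff_σ' ha k hk, h, MvPolynomial.coeff_zero]
  · rw [eq_zero_of_not (ha k) fun h => hk (nonneg_of_ok h), coeff_zero]

theorem σ'_comm (m n l : ℕ) (a b : D) (ha : a ∈ M.F m) (hb : b ∈ M.F n) (hl : m + n = l + 1) :
    σ' l (a * b - b * a) = brP (σ' m a) (σ' n b) := by
  refine F_ind (Q := fun a => σ' l (a * b - b * a) = brP (σ' m a) (σ' n b)) (by simp [brP])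
    (fun a a' h h' => ?_) (fun k p hp => ?_) ha
  · simp only [brP, map_add, map_sub, add_mul, mul_add] at h h' ⊢
    linear_combination h + h'
  refine F_ind (Q := fun b => σ' l (T k p * b - b * T k p) = brP (σ' m (T k p)) (σ' n b))
    (by simp [brP]) (fun a a' h h' => ?_) (fun k' q hq => ?_) hb
  · simp only [brP, map_add, map_sub, add_mul, mul_add] at h h' ⊢
    linear_combination h + h'
  by_cases h1 : (M.Z k).card ≤ m
  swap
  · simp [eq_zero_of_not hp h1, brP]
  by_cases h2 : (M.Z k').card ≤ n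
  swap
  · simp [eq_zero_of_not hq h2, brP]
  have h3 : p * taylor (-(k : ℂ)) q - q * taylor (-(k' : ℂ)) p =
      p * (taylor (-(k : ℂ)) q - q) - q * (taylor (-(k' : ℂ)) p - p) := by ring
  rw [T_mul, T_mul, add_comm k' k, ← map_sub, σ'_T, σ'_T, σ'_T, h3, coeff_sub,
    mul_shift hp.1 hq.1 hl, mul_shift hq.1 hp.1 (by omega), brP]
  simp only [MvPolynomial.pderiv_monomial, MvPolynomial.monomial_mul, ex_zero, ex_one]
  obtain ⟨i, hi⟩ := Int.eq_ofNat_of_zero_le (nonneg_of_ok h1)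
  obtain ⟨j, hj⟩ := Int.eq_ofNat_of_zero_le (nonneg_of_ok h2)
  have hi' : (k : ℂ) = i - m := by
    have : k = i - m := by omega
    rw [this]; push_cast; rfl
  have hj' : (k' : ℂ) = j - n := by
    have : k' = j - n := by omega
    rw [this]; push_cast; rfl
  have e1 : MvPolynomial.monomial (ex k m - Finsupp.single 0 1 + (ex k' n - Finsupp.single 1 1))
      (p.coeff m * m * (q.coeff n * j)) =
      MvPolynomial.monomial (ex (k + k') l) (p.coeff m * m * (q.coeff n * j)) := by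
    rcases Nat.eq_zero_or_pos m with h | h
    · simp [h]
    rcases Nat.eq_zero_or_pos j with h' | h'
    · simp [h']
    congr 2
    refine fin2_ext ?_ ?_
    · simp; omega
    · simp; omega
  have e2 : MvPolynomial.monomial (ex k m - Finsupp.single 1 1 + (ex k' n - Finsupp.single 0 1))
      (p.coeff m * i * (q.coeff n * n)) =
      MvPolynomial.monomial (ex (k + k') l) (p.coeff m * i * (q.coeff n * n)) := by
    rcases Nat.eq_zero_or_pos n with h | h
    · simp [h]
    rcases Nat.eq_zero_or_pos i with h' | h'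
    · simp [h']
    congr 2
    refine fin2_ext ?_ ?_
    · simp; omega
    · simp; omega
  rw [hi, hj, Int.toNat_natCast, Int.toNat_natCast, e1, e2, ← map_sub, hi', hj']
  congr 1
  ring

end Ma

end Pool.Agent.Lib.MP_b538eb_ag
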