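import Pool.Agent.Lib.MP_b538eb_ag.Maya.A

set_option autoImplicit false

open Polynomial Finset

namespace Pool.Agent.Lib.MP_b538eb_ag

namespace Ma

variable {M : Ma}

variable (M) in
open Classical in
/-- Quantization of the part of order `d`. -/
noncomputable def q' (d : ℕ) : P →ₗ[ℂ] D :=
  (MvPolynomial.basisMonomials (Fin 2) ℂ).constr ℂ fun e =>
    if e 0 = d ∧ M.ok e then T ((e 1 : ℤ) - d) (M.gp ((e 1 : ℤ) - d) d) else 0

open Classical in
theorem q'_monomial (d : ℕ) (e : Fin 2 →₀ ℕ) (c : ℂ) : M.q' d (MvPolynomial.monomial e c) =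
    if e 0 = d ∧ M.ok e then c • T ((e 1 : ℤ) - d) (M.gp ((e 1 : ℤ) - d) d) else 0 := by
  have : MvPolynomial.monomial e c = c • MvPolynomial.basisMonomials (Fin 2) ℂ e := by
    simp [MvPolynomial.smul_monomial]
  rw [this, map_smul, q', Module.Basis.constr_basis]
  split_ifs <;> simp

theorem q'_mem (d : ℕ) (f : P) : M.q' d f ∈ M.F d := by
  induction f using MvPolynomial.induction_on' with
  | add p q hp hq => rw [map_add]; exact add_mem hp hq
  | monomial e c =>
    rw [q'_monomial]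
    split_ifs with h
    · exact Submodule.smul_mem _ _ (T_mem (gp_spec (by obtain ⟨rfl, h⟩ := h; exact h)).1)
    · exact zero_mem _

open Classical in
theorem σ'_q' (d : ℕ) (e : Fin 2 →₀ ℕ) (c : ℂ) : σ' d (M.q' d (MvPolynomial.monomial e c)) =
    if e 0 = d ∧ M.ok e then MvPolynomial.monomial e c else 0 := by
  rw [q'_monomial]
  split_ifs with h
  · rw [map_smul, σ'_T, (gp_spec (by obtain ⟨rfl, h⟩ := h; exact h)).2, MvPolynomial.smul_monomial, smul_eq_mul, mul_one]
    congr 2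
    refine fin2_ext (by simp [h.1]) (by simp)
  · simp

theorem q'_sum {f : P} (hf : f ∈ M.Rr) :
    ∃ N, (∀ d, N ≤ d → M.q' d f = 0) ∧ ∑ d ∈ range N, σ' d (M.q' d f) = f := by
  refine ⟨(f.support.sup fun e => e 0) + 1, fun d hd => ?_, ?_⟩
  · rw [f.as_sum, map_sum]
    refine sum_eq_zero fun e he => ?_
    have : e 0 ≤ f.support.sup fun e => e 0 := le_sup (f := fun e : Fin 2 →₀ ℕ => e 0) he
    rw [q'_monomial, if_neg (by omega)]
  · generalize hN : (f.support.sup fun e => e 0) + 1 = N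
    conv_lhs => rw [f.as_sum]
    conv_rhs => rw [f.as_sum]
    simp only [map_sum]
    rw [sum_comm]
    refine sum_congr rfl fun e he => ?_
    have h1 : e 0 ≤ f.support.sup fun e => e 0 := le_sup (f := fun e : Fin 2 →₀ ℕ => e 0) he
    have h2 : M.ok e := by_contra fun h => MvPolynomial.mem_support_iff.1 he (hf e h)
    simp only [σ'_q', h2, and_true]
    rw [sum_ite_eq, if_pos (mem_range.2 (by omega))]

theorem σ'_indep (m n : ℕ) (a : D) (ha : a ∈ M.F n) :
    σ' m (M.q' m (σ' n a)) = if m = n then σ' n a else 0 := by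
  refine F_ind (Q := fun a => σ' m (M.q' m (σ' n a)) = if m = n then σ' n a else 0) (by simp)
    (fun a a' h h' => ?_) (fun k p hp => ?_) ha
  · simp only [map_add, h, h']
    split_ifs <;> simp
  by_cases h1 : (M.Z k).card ≤ n
  swap
  · simp [eq_zero_of_not hp h1]
  classical
  rw [σ'_T, σ'_q']
  refine if_congr (h_c := ?_) rfl rfl
  have n1 := nonneg_of_ok h1
  simp only [ok, ex_zero, ex_one]
  rw [show (((k + n).toNat : ℕ) : ℤ) - n = k by omega]
  omega

theorem exists_proj : ∃ ρ : P →ₗ[ℂ] M.Rr, ∀ f ∈ M.Rr, (ρ f : P) = f := by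
  obtain ⟨ρ, hρ⟩ := M.Rr.val.toLinearMap.exists_leftInverse_of_injective
    (LinearMap.ker_eq_bot.2 Subtype.val_injective)
  exact ⟨ρ, fun f hf => congrArg Subtype.val (LinearMap.congr_fun hρ ⟨f, hf⟩)⟩

variable (M) in
/-- The symbol with values in the subalgebra. -/
noncomputable def σ (m : ℕ) : D →ₗ[ℂ] M.Rr := (exists_proj (M := M)).choose ∘ₗ σ' m

theorem coe_σ {m : ℕ} {a : D} (ha : a ∈ M.F m) : (M.σ m a : P) = σ' m a :=
  exists_proj.choose_spec _ (σ'_mem ha)

theorem F_mono : Monotone M.F := fun _ _ h _ ha k => ⟨(ha k).1.trans h, (ha k).2⟩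

theorem one_mem : (1 : D) ∈ M.F 0 := T_mem (k := 0) ⟨by simp, fun t h h' => absurd (by simpa using h) h'⟩

theorem ker_succ (m : ℕ) (a : D) (ha : a ∈ M.F (m + 1)) (h : σ' (m + 1) a = 0) : a ∈ M.F m := by
  refine fun k => ⟨?_, (ha k).2⟩
  rw [natDegree_le_iff_coeff_eq_zero]
  intro j hj
  rcases (Nat.succ_le_of_lt hj).eq_or_lt with h1 | h1
  · rw [← h1]; exact top_zero ha h k
  · exact coeff_eq_zero_of_natDegree_lt ((ha k).1.trans_lt h1)

theorem pderiv_σ' {a : D} (ha : a ∈ M.F 0) : MvPolynomial.pderiv 0 (σ' 0 a) = 0 := by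
  refine F_ind (Q := fun a => MvPolynomial.pderiv 0 (σ' 0 a) = 0) (by simp)
    (fun a a' h h' => ?_) (fun k p _ => ?_) ha
  · rw [map_add, map_add, h, h', add_zero]
  · simp [σ'_T]

theorem comm_mem (m n l : ℕ) (a b : D) (ha : a ∈ M.F m) (hb : b ∈ M.F n) (h : m + n = l + 1) :
    a * b - b * a ∈ M.F l := by
  have h1 := F_mul _ _ _ _ ha hb
  have h2 := F_mul _ _ _ _ hb ha
  have h3 := σ'_mul _ _ _ _ ha hb
  have h4 := σ'_mul _ _ _ _ hb ha
  rw [add_comm n m] at h2 h4
  rw [h] at h1 h2 h3 h4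
  exact ker_succ l _ (sub_mem h1 h2) (by rw [map_sub, h3, h4, mul_comm, sub_self])

theorem brP_add_left (f f' g : P) : brP (f + f') g = brP f g + brP f' g := by simp [brP]; ring
theorem brP_add_right (f g g' : P) : brP f (g + g') = brP f g + brP f g' := by simp [brP]; ring

theorem brP_mem {f g : P} (hf : f ∈ M.Rr) (hg : g ∈ M.Rr) : brP f g ∈ M.Rr := by
  obtain ⟨N, -, h1⟩ := q'_sum hf
  obtain ⟨N', -, h2⟩ := q'_sum hg
  rw [← h1, ← h2]
  refine sum_induction _ (fun x => brP x _ ∈ M.Rr) (fun a b ha hb => ?_) (by simp [brP])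
    fun m _ => ?_
  · rw [brP_add_left]; exact add_mem ha hb
  refine sum_induction _ (fun x => brP _ x ∈ M.Rr) (fun a b ha hb => ?_) (by simp [brP])
    fun n _ => ?_
  · rw [brP_add_right]; exact add_mem ha hb
  rcases h : m + n with _ | l
  · obtain rfl : m = 0 := by omega
    obtain rfl : n = 0 := by omega
    rw [brP, pderiv_σ' (q'_mem 0 f), pderiv_σ' (q'_mem 0 g)]
    simp
  · rw [← σ'_comm m n l _ _ (q'_mem m f) (q'_mem n g) h]
    exact σ'_mem (comm_mem m n l _ _ (q'_mem m f) (q'_mem n g) h)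

variable (M) in
/-- The bracket on the subalgebra. -/
noncomputable def brR : M.Rr →ₗ[ℂ] M.Rr →ₗ[ℂ] M.Rr :=
  LinearMap.mk₂ ℂ (fun f g => ⟨brP f g, brP_mem f.2 g.2⟩)
    (fun f f' g => Subtype.ext (by simp [brP]; ring))
    (fun c f g => Subtype.ext (by simp [brP, smul_sub]))
    (fun f g g' => Subtype.ext (by simp [brP]; ring))
    (fun c f g => Subtype.ext (by simp [brP, smul_sub]))

theorem coe_brR (f g : M.Rr) : (M.brR f g : P) = brP f g := rfl

theorem isPoisson : IsPoisson (fun a b => M.brR a b) := by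
  refine ⟨fun a => (M.brR a).isLinear, fun b => (M.brR.flip b).isLinear, fun a => Subtype.ext ?_,
    fun a b c => Subtype.ext ?_, fun a b c => Subtype.ext ?_⟩
  · simp [coe_brR, brP, mul_comm]
  · simp only [coe_brR, brP, AddMemClass.coe_add, ZeroMemClass.coe_zero, map_sub, MvPolynomial.pderiv_mul,
      pderiv_swap]
    ring
  · simp only [coe_brR, brP, AddMemClass.coe_add, MulMemClass.coe_mul, MvPolynomial.pderiv_mul]
    ring

variable (M) in
/-- The filtered algebra of differential operators on the cusp. -/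
noncomputable def data : Data D M.brR where
  F := M.F
  σ := M.σ
  q d := M.q' d ∘ₗ M.Rr.val.toLinearMap
  mono := F_mono
  one_mem := one_mem
  mul_mem := F_mul
  σ_one := Subtype.ext (by
    rw [coe_σ one_mem, one_eq, σ'_T]
    have : ex 0 0 = 0 := fin2_ext (by simp) (by simp)
    simp [this])
  σ_mul m n a b ha hb := Subtype.ext (by
    rw [MulMemClass.coe_mul, coe_σ ha, coe_σ hb, coe_σ (F_mul _ _ _ _ ha hb), σ'_mul _ _ _ _ ha hb])
  σ_succ m a ha := Subtype.ext (by
    rw [coe_σ (F_mono (Nat.le_succ m) ha), σ'_succ m a ha]; rfl)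
  ker_zero a ha h := by
    have h1 : σ' 0 a = 0 := by rw [← coe_σ ha, h]; rfl
    ext x : 1
    have := top_zero ha h1 (w x)
    rw [g_w] at this
    have h2 := eq_C_of_natDegree_le_zero (ha (w x)).1
    rw [g_w, this] at h2
    simpa using h2
  ker_succ m a ha h := ker_succ m a ha (by rw [← coe_σ ha, h]; rfl)
  br_zero a ha b hb := Subtype.ext (by
    rw [coe_brR, coe_σ ha, coe_σ hb, brP, pderiv_σ' ha, pderiv_σ' hb]; simp)
  comm m n l a b ha hb h := Subtype.ext (by
    have h1 := F_mul _ _ _ _ ha hb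
    have h2 := F_mul _ _ _ _ hb ha
    have h3 := σ'_mul _ _ _ _ ha hb
    have h4 := σ'_mul _ _ _ _ hb ha
    rw [add_comm n m] at h2 h4
    rw [h] at h1 h2 h3 h4
    rw [coe_brR, coe_σ ha, coe_σ hb, coe_σ (ker_succ l _ (sub_mem h1 h2)
      (by rw [map_sub, h3, h4, mul_comm, sub_self])), σ'_comm _ _ _ _ _ ha hb h])
  q_mem d r := q'_mem d r
  q_sum r := by
    obtain ⟨N, h1, h2⟩ := q'_sum r.2
    refine ⟨N, h1, Subtype.ext ?_⟩
    rw [AddSubmonoidClass.coe_finsetSum, ← h2]
    exact sum_congr rfl fun d _ => coe_σ (q'_mem d r)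
  indep m n a ha := Subtype.ext (by
    have : ((M.q' m ∘ₗ M.Rr.val.toLinearMap) (M.σ n a)) = M.q' m (σ' n a) := by
      rw [← coe_σ ha]; rfl
    rw [this, coe_σ (q'_mem _ _), σ'_indep _ _ _ ha]
    split_ifs
    · exact (coe_σ ha).symm
    · rfl)

end Ma

end Pool.Agent.Lib.MP_b538eb_ag
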