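import Pool.Agent.Lib.MP_b538eb_ag.Maya.B

set_option autoImplicit false

open Polynomial Finset

namespace Pool.Agent.Lib.MP_b538eb_ag

namespace Ma

variable {M : Ma}

theorem antider1 (m : ℕ) (p : ℂ[X]) (hp : p.natDegree ≤ m) :
    ∃ Q : ℂ[X], Q.natDegree ≤ m + 1 ∧ p = taylor (-1) Q - Q := by
  induction m generalizing p with
  | zero =>
    refine ⟨C (-p.coeff 0) * X, (natDegree_C_mul_le _ _).trans (by simp), ?_⟩
    rw [eq_C_of_natDegree_le_zero hp]
    simp only [taylor_mul, taylor_C, taylor_X, coeff_C_zero, ← mul_sub, add_sub_cancel_left,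
      ← C_mul]
    congr 1; ring
  | succ m ih =>
    set c : ℂ := -p.coeff (m + 1) / (m + 2) with hc
    have h1 : (monomial (m + 2) c).natDegree ≤ m + 2 := natDegree_monomial_le _
    have h2 : (p - (taylor (-1) (monomial (m + 2) c) - monomial (m + 2) c)).natDegree ≤ m := by
      rw [natDegree_le_iff_coeff_eq_zero]
      intro j hj
      rw [coeff_sub, coeff_taylor_top h1 _ j (by omega), coeff_monomial]
      split_ifs with h
      · obtain rfl : j = m + 1 := by omega
        have : ((m : ℂ) + 2) ≠ 0 := by exact_mod_cast (by omega : m + 2 ≠ 0)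
        rw [hc]; push_cast; field_simp; ring
      · rw [coeff_eq_zero_of_natDegree_lt (by omega)]; simp
    obtain ⟨Q, hQ, h⟩ := ih _ h2
    refine ⟨Q + monomial (m + 2) c, natDegree_add_le_of_degree_le (by omega) h1, ?_⟩
    rw [map_add]
    linear_combination h

theorem interp (s : Finset ℤ) (v : ℤ → ℂ) :
    ∃ Q : ℂ[X], Q.natDegree ≤ s.card ∧ ∀ t ∈ s, Q.eval (t : ℂ) = v t := by
  have hi : Set.InjOn (fun t : ℤ => (t : ℂ)) s := Int.cast_injective.injOn
  refine ⟨Lagrange.interpolate s (fun t : ℤ => (t : ℂ)) v, ?_,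
    fun t ht => Lagrange.eval_interpolate_at_node v hi ht⟩
  exact natDegree_le_iff_degree_le.2 (Lagrange.degree_interpolate_lt v hi).le

open Classical in
variable (M) in
/-- The polynomial with the small members of the set as roots. -/
noncomputable def a1 : ℂ[X] := ∏ s ∈ (Ico (0 : ℤ) M.c).filter M.S, (X - C (s : ℂ))

theorem a1_monic : M.a1.Monic := monic_prod_of_monic _ _ fun _ _ => monic_X_sub_C _

theorem a1_deg : M.a1.natDegree ≤ M.c := by
  classical
  rw [a1, natDegree_prod_of_monic _ _ fun t _ => monic_X_sub_C _]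
  simp only [natDegree_X_sub_C, sum_const, smul_eq_mul, mul_one]
  exact (card_filter_le _ _).trans (by simp)

theorem a1_eval {t : ℤ} : M.a1.eval (t : ℂ) = 0 ↔ M.S t ∧ t < M.c := by
  classical
  simp only [a1, eval_prod, prod_eq_zero_iff, eval_sub, eval_X, eval_C, sub_eq_zero, Int.cast_inj,
    mem_filter, mem_Ico]
  exact ⟨by rintro ⟨s, h, rfl⟩; exact ⟨h.2, h.1.2⟩, fun h => ⟨t, ⟨⟨M.h0 _ h.1, h.2⟩, h.1⟩, rfl⟩⟩

theorem a1_dvd {G : ℂ[X]} (h : ∀ t : ℤ, M.S t → t < M.c → G.eval (t : ℂ) = 0) : M.a1 ∣ G := by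
  classical
  refine Finset.prod_dvd_of_coprime (fun a _ b _ hab => isCoprime_X_sub_C_of_isUnit_sub
    (sub_ne_zero.2 (Int.cast_injective.ne hab)).isUnit) fun t ht => dvd_iff_isRoot.2 ?_
  have := mem_filter.1 ht
  exact h t this.2 (mem_Ico.1 this.1).2

variable (M) in
/-- The three left entries of the commutators. -/
noncomputable def u : Fin 3 → D := ![T 0 X, T M.c 1, T 1 (taylor (-1) M.a1)]

theorem u_mem (i : Fin 3) : M.u i ∈ M.F (2 * M.c + 1) := by
  fin_cases i
  · exact T_mem ⟨by simp, fun t h h' => absurd (by simpa using h) h'⟩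
  · exact T_mem ⟨by simp, fun t h h' => absurd (M.hc t (by have := M.h0 _ h; omega)) h'⟩
  · refine T_mem ⟨by rw [natDegree_taylor]; have := a1_deg (M := M); omega, fun t h h' => ?_⟩
    have := (a1_eval (M := M)).2 ⟨h, by have := mt (M.hc t) h'; omega⟩
    rw [taylor_eval]
    push_cast at this
    rwa [← sub_eq_add_neg]

theorem split (m : ℕ) (p : ℂ[X]) (hp : p.natDegree ≤ m) : ∃ Q b : ℂ[X],
    Q ∈ M.Fk (-(M.c : ℤ)) (m + (2 * M.c + 1)) ∧ b ∈ M.Fk (-1) (m + (2 * M.c + 1)) ∧
      p = (taylor (-(M.c : ℂ)) Q - Q) + (taylor (-1) (M.a1 * b) - M.a1 * b) := by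
  classical
  obtain ⟨Q, hQ, hv⟩ := interp (Ico (-(M.c : ℤ)) M.c) fun s =>
    if 0 ≤ s then (if M.S s then -p.eval (s : ℂ) else 0)
    else if M.S (s + M.c) then 0 else p.eval ((s + M.c : ℤ) : ℂ)
  have hQ' : Q.natDegree ≤ 2 * M.c := hQ.trans (by simp; omega)
  have h1 : (p - (taylor (-(M.c : ℂ)) Q - Q)).natDegree ≤ m + 2 * M.c :=
    (natDegree_sub_le_of_le (m := m + 2 * M.c) (n := m + 2 * M.c) (by omega)
      ((natDegree_sub_le _ _).trans (by rw [natDegree_taylor]; omega))).trans (by omega)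
  obtain ⟨G, hG, hG'⟩ := antider1 _ _ h1
  have step : ∀ t : ℤ, 0 ≤ t → t < M.c → G.eval (t : ℂ) = G.eval ((t - 1 : ℤ) : ℂ) := by
    intro t h0 h2
    have e := congrArg (eval (t : ℂ)) hG'
    have e1 := hv t (mem_Ico.2 ⟨by omega, h2⟩)
    have e2 := hv (t - M.c) (mem_Ico.2 ⟨by omega, by omega⟩)
    rw [if_pos h0] at e1
    rw [if_neg (by omega), sub_add_cancel] at e2
    simp only [eval_sub, taylor_eval, ← sub_eq_add_neg] at e
    push_cast at e2 ⊢
    rw [e1, e2] at e
    split_ifs at e <;> linear_combination e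
  have cst : ∀ (n : ℕ), n ≤ M.c → G.eval (((n : ℤ) - 1 : ℤ) : ℂ) = G.eval (-1) := by
    intro n hn
    induction n with
    | zero => simp
    | succ n ih =>
      rw [← ih (by omega), ← step n (by omega) (by omega)]
      simp
  have van : ∀ t : ℤ, -1 ≤ t → t < M.c → (G - C (G.eval (-1))).eval (t : ℂ) = 0 := by
    intro t h0 h2
    have := cst (t + 1).toNat (by omega)
    rw [show (((t + 1).toNat : ℕ) : ℤ) - 1 = t by omega] at this
    simp [this]
  obtain ⟨b, hb⟩ := a1_dvd (M := M) fun t ht h2 => van t (by have := M.h0 t ht; omega) h2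
  refine ⟨Q, b, ⟨by omega, fun t h h' => ?_⟩, ⟨?_, fun t h h' => ?_⟩, ?_⟩
  · have h3 := M.h0 _ h
    rw [hv t (mem_Ico.2 ⟨by omega, not_le.1 (mt (M.hc t) h')⟩), if_neg h',
      if_pos (show M.S (t + M.c) by simpa using h), ite_self]
  · by_cases h0 : b = 0
    · simp [h0]
    have h3 := congrArg natDegree hb
    rw [natDegree_sub_C, a1_monic.natDegree_mul' h0] at h3
    omega
  · have h3 := van t (by have := M.h0 _ h; omega) (not_le.1 (mt (M.hc t) h'))
    rw [hb, eval_mul] at h3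
    exact (mul_eq_zero.1 h3).resolve_left fun e => h' (a1_eval.1 e).1
  · rw [← hb, map_sub, taylor_C]
    linear_combination hG'

theorem decomp (m : ℕ) (d : D) (hd : d ∈ M.F m) :
    ∃ b : Fin 3 → D, (∀ i, b i ∈ M.F (m + (2 * M.c + 1))) ∧
      d = ∑ i, (M.u i * b i - b i * M.u i) := by
  refine F_ind (Q := fun d => ∃ b : Fin 3 → D, (∀ i, b i ∈ M.F (m + (2 * M.c + 1))) ∧
    d = ∑ i, (M.u i * b i - b i * M.u i)) ⟨0, fun i => zero_mem _, by simp⟩ ?_
    (fun k p hp => ?_) hd
  · rintro a a' ⟨b, hb, rfl⟩ ⟨b', hb', rfl⟩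
    refine ⟨b + b', fun i => add_mem (hb i) (hb' i), ?_⟩
    rw [← sum_add_distrib]
    refine sum_congr rfl fun i _ => ?_
    simp only [Pi.add_apply, mul_add, add_mul]
    abel
  by_cases hk : k = 0
  · subst hk
    obtain ⟨Q, b, h2, h3, h⟩ := split (M := M) m p hp.1
    refine ⟨![0, T (-(M.c : ℤ)) Q, T (-1) b], fun i => ?_, ?_⟩
    · fin_cases i
      · exact zero_mem _
      · exact T_mem h2
      · exact T_mem h3
    · rw [Fin.sum_univ_three]
      change _ = (T 0 X * 0 - 0 * T 0 X) + (T M.c 1 * T (-(M.c : ℤ)) Q - T (-(M.c : ℤ)) Q * T M.c 1) +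
        (T 1 (taylor (-1) M.a1) * T (-1) b - T (-1) b * T 1 (taylor (-1) M.a1))
      rw [comm_T, T_mul, T_mul, mul_zero, zero_mul, sub_zero, zero_add, add_neg_cancel,
        neg_add_cancel, ← map_sub, ← map_add, h]
      congr 1
      refine Polynomial.funext fun z => ?_
      simp [taylor_eval]
      ring
  · refine ⟨![(k : ℂ)⁻¹ • T k p, 0, 0], fun i => ?_, ?_⟩
    · fin_cases i
      · exact Submodule.smul_mem _ _ (F_mono (by omega) (T_mem hp))
      · exact zero_mem _
      · exact zero_mem _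
    · rw [Fin.sum_univ_three]
      change _ = (T 0 X * ((k : ℂ)⁻¹ • T k p) - ((k : ℂ)⁻¹ • T k p) * T 0 X) +
        (T M.c 1 * 0 - 0 * T M.c 1) + (T 1 (taylor (-1) M.a1) * 0 - 0 * T 1 (taylor (-1) M.a1))
      have hk' : (k : ℂ) ≠ 0 := by exact_mod_cast hk
      rw [mul_smul_comm, smul_mul_assoc, T_mul, T_mul, zero_add, add_zero, ← smul_sub, ← map_sub,
        ← map_smul]
      simp only [mul_zero, zero_mul, sub_zero, add_zero]
      congr 1
      refine Polynomial.funext fun z => ?_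
      simp
      field_simp
      ring

theorem hh_top : Submodule.span (LaurentSeries ℂ)
    {x : TensorProduct (PowerSeries ℂ) (LaurentSeries ℂ) M.data.A | ∃ a b, x = a * b - b * a} = ⊤ :=
  span_comm_top _ (M.data.X_pow_comm (2 * M.c + 1) M.u u_mem decomp)

end Ma

end Pool.Agent.Lib.MP_b538eb_ag
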