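import Pool.Agent.Lib.MP_b538eb_ag.Maya.C

set_option autoImplicit false

open MvPolynomial Finset AlgebraicGeometry CategoryTheory

namespace Pool.Agent.Lib.MP_b538eb_ag

namespace Ma

variable {M : Ma}

theorem mon_mem {e : Fin 2 →₀ ℕ} (h : M.ok e) (a : ℂ) : monomial e a ∈ M.Rr := by
  intro d hd
  rw [coeff_monomial, if_neg]
  rintro rfl
  exact hd h

theorem pow_mul_mem (i : Fin 2) (f : P) : X i ^ (2 * M.c) * f ∈ M.Rr := by
  intro e he
  rw [X_pow_eq_monomial, coeff_monomial_mul', if_neg]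
  intro h
  have h1 := h i
  simp only [Finsupp.single_eq_same] at h1
  refine he (ok_of_big ?_)
  fin_cases i
  · exact Or.inl h1
  · exact Or.inr h1

theorem finite_P : Module.Finite M.Rr P := by
  have h1 : Algebra.FiniteType M.Rr P := Algebra.FiniteType.of_restrictScalars_finiteType ℂ M.Rr P
  have h2 : Algebra.IsIntegral M.Rr P := by
    refine ⟨fun f => ?_⟩
    induction f using MvPolynomial.induction_on with
    | C a => exact isIntegral_algebraMap (x := (⟨C a, M.Rr.algebraMap_mem a⟩ : M.Rr))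
    | add p q hp hq => exact hp.add hq
    | mul_X p i hp =>
      refine hp.mul (IsIntegral.of_pow (n := 2 * M.c + 1) (by omega) ?_)
      exact isIntegral_algebraMap (x := (⟨X i ^ (2 * M.c + 1), by
        rw [pow_succ]; exact pow_mul_mem i _⟩ : M.Rr))
  exact Algebra.IsIntegral.finite

theorem finiteType_R : Algebra.FiniteType ℂ M.Rr :=
  ⟨fg_of_fg_of_fg ℂ M.Rr P Algebra.FiniteType.out finite_P.1 Subtype.val_injective⟩

theorem resolved : ResolvedByPlane (fun a b => M.brR a b) := by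
  refine ⟨M.Rr.val, ?_, ?_, fun f g => rfl⟩
  · have : IsFinite (Spec.map (CommRingCat.ofHom M.Rr.val.toRingHom)) :=
      (IsFinite.SpecMap_iff _).2 finite_P
    infer_instance
  · let r : M.Rr := ⟨X 0 ^ (2 * M.c), by simpa using pow_mul_mem (M := M) 0 1⟩
    have hr : (r : P) ≠ 0 := pow_ne_zero _ (X_ne_zero _)
    have hr' : r ≠ 0 := fun h => hr (by rw [h]; rfl)
    refine ⟨PrimeSpectrum.basicOpen r, ?_, ?_, ?_⟩
    · refine (PrimeSpectrum.basicOpen r).isOpen.dense ⟨⟨⊥, Ideal.isPrime_bot⟩, ?_⟩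
      simpa using hr'
    · refine IsOpen.dense (TopologicalSpace.Opens.isOpen _) ⟨⟨⊥, Ideal.isPrime_bot⟩, ?_⟩
      change M.Rr.val.toRingHom r ∉ (⊥ : Ideal P)
      simpa using hr
    · have e := SpecMapRestrictBasicOpenIso (CommRingCat.ofHom M.Rr.val.toRingHom) r
      refine (MorphismProperty.arrow_mk_iso_iff (MorphismProperty.isomorphisms _) e).2 ?_
      change IsIso _
      rw [isIso_SpecMap_iff]
      refine ⟨Localization.awayMap_injective_iff.2 fun a ha => ⟨0, ?_⟩,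
        Localization.awayMap_surjective_iff.2 fun a => ⟨⟨_, pow_mul_mem 0 a⟩, 1, ?_⟩⟩
      · rw [pow_zero, one_mul]; exact Subtype.ext ha
      · rw [pow_one]; rfl

theorem coeff_half (i j : Fin 2) (hij : i ≠ j) (e e' d : Fin 2 →₀ ℕ) (a b : ℂ) :
    coeff d (pderiv i (monomial e a) * pderiv j (monomial e' b)) =
      if d 0 + 1 = e 0 + e' 0 ∧ d 1 + 1 = e 1 + e' 1 then a * b * (e i * e' j) else 0 := by
  rw [pderiv_monomial, pderiv_monomial, monomial_mul, coeff_monomial]
  rcases Nat.eq_zero_or_pos (e i) with h | h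
  · simp [h]
  rcases Nat.eq_zero_or_pos (e' j) with h' | h'
  · simp [h']
  refine if_congr ⟨?_, fun h1 => fin2_ext ?_ ?_⟩ (by ring) rfl
  · rintro rfl
    fin_cases i <;> fin_cases j <;> simp at hij h h' ⊢ <;> omega
  · fin_cases i <;> fin_cases j <;> simp at hij h h' ⊢ <;> omega
  · fin_cases i <;> fin_cases j <;> simp at hij h h' ⊢ <;> omega

theorem coeff_brP (e e' d : Fin 2 →₀ ℕ) (a b : ℂ) :
    coeff d (brP (monomial e a) (monomial e' b)) =
      if d 0 + 1 = e 0 + e' 0 ∧ d 1 + 1 = e 1 + e' 1 then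
        a * b * (e 0 * e' 1 - e 1 * e' 0) else 0 := by
  rw [brP, coeff_sub, coeff_half 0 1 (by decide), coeff_half 1 0 (by decide)]
  split_ifs
  · ring
  · simp

theorem brP_mon (e e' d : Fin 2 →₀ ℕ) (a b : ℂ) (h0 : d 0 + 1 = e 0 + e' 0)
    (h1 : d 1 + 1 = e 1 + e' 1) :
    brP (monomial e a) (monomial e' b) = monomial d (a * b * (e 0 * e' 1 - e 1 * e' 0)) := by
  ext x
  rw [coeff_brP, coeff_monomial]
  exact if_congr ⟨fun h => fin2_ext (by omega) (by omega), by rintro rfl; exact ⟨h0, h1⟩⟩ rfl rfl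

/-- An exponent vector. -/
noncomputable def ev (a b : ℕ) : Fin 2 →₀ ℕ := Finsupp.single 0 a + Finsupp.single 1 b

@[simp] theorem ev_zero (a b : ℕ) : ev a b 0 = a := by simp [ev]
@[simp] theorem ev_one (a b : ℕ) : ev a b 1 = b := by simp [ev]

theorem ok_diag (i : ℕ) : M.ok (ev i i) := by simp [ok, Z_zero]

theorem R_ind {Q : P → Prop} (h0 : Q 0) (hadd : ∀ a b, Q a → Q b → Q (a + b)) {f : P}
    (hf : f ∈ M.Rr) (h : ∀ e, M.ok e → coeff e f ≠ 0 → Q (monomial e (coeff e f))) : Q f := by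
  rw [f.as_sum]
  refine sum_induction _ _ hadd h0 fun e he => h e ?_ (mem_support_iff.1 he)
  exact by_contra fun h => mem_support_iff.1 he (hf e h)

theorem diag_zero {N : ℕ} (hlow : ∀ j : ℕ, 0 < j → N + 1 ≤ (M.Z j).card + j) {f g : P}
    (hf : f ∈ M.Rr) (hg : g ∈ M.Rr) {i : ℕ} (hi : i < N) : coeff (ev i i) (brP f g) = 0 := by
  refine R_ind (Q := fun x => coeff (ev i i) (brP x g) = 0) (by simp [brP])
    (fun a b ha hb => by rw [brP_add_left, coeff_add, ha, hb, add_zero]) hf fun e he _ => ?_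
  refine R_ind (Q := fun x => coeff (ev i i) (brP _ x) = 0) (by simp [brP])
    (fun a b ha hb => by rw [brP_add_right, coeff_add, ha, hb, add_zero]) hg fun e' he' _ => ?_
  rw [coeff_brP]
  split_ifs with h
  swap
  · rfl
  simp only [ev_zero, ev_one, ok] at h he he'
  rcases lt_trichotomy (e 0) (e 1) with l | l | l
  · have := hlow (e 1 - e 0) (by omega)
    rw [show ((e 1 - e 0 : ℕ) : ℤ) = (e 1 : ℤ) - e 0 by omega] at this
    omega
  · rw [l, show e' 0 = e' 1 by omega]; ring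
  · have := hlow (e' 1 - e' 0) (by omega)
    rw [show ((e' 1 - e' 0 : ℕ) : ℤ) = (e' 1 : ℤ) - e' 0 by omega] at this
    omega

theorem hp_rank {N : ℕ} (hlow : ∀ j : ℕ, 0 < j → N + 1 ≤ (M.Z j).card + j)
    (hK : ∀ t, M.S t → M.S (t + (N + 1 : ℕ))) :
    Nonempty ((M.Rr ⧸ Submodule.span ℂ {x : M.Rr | ∃ f g, x = M.brR f g}) ≃ₗ[ℂ] (Fin N → ℂ)) := by
  let φ : M.Rr →ₗ[ℂ] (Fin N → ℂ) :=
    LinearMap.pi fun i => lcoeff ℂ (ev i i) ∘ₗ M.Rr.val.toLinearMap
  have hs : Function.Surjective φ := by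
    intro v
    refine ⟨∑ i : Fin N, ⟨monomial (ev i i) (v i), mon_mem (ok_diag _) _⟩, funext fun j => ?_⟩
    rw [map_sum, Finset.sum_apply, sum_eq_single j (fun i _ hij => ?_) (by simp)]
    · change coeff _ (monomial _ _) = _
      simp
    · change coeff _ (monomial _ _) = _
      rw [coeff_monomial, if_neg]
      intro h
      have := DFunLike.congr_fun h 0
      simp only [ev_zero] at this
      exact hij (Fin.ext this)
  have hk : Submodule.span ℂ {x : M.Rr | ∃ f g, x = M.brR f g} = LinearMap.ker φ := by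
    refine le_antisymm (Submodule.span_le.2 ?_) fun f hf => ?_
    · rintro _ ⟨f, g, rfl⟩
      exact funext fun i => diag_zero hlow f.2 g.2 i.2
    have hf' : ∀ i, i < N → coeff (ev i i) (f : P) = 0 := fun i hi => congrFun hf ⟨i, hi⟩
    obtain ⟨x, hx, e⟩ : ∃ x ∈ Submodule.span ℂ {x : M.Rr | ∃ f g, x = M.brR f g},
        (x : P) = f := by
      refine R_ind (Q := fun y => ∃ x ∈ Submodule.span ℂ {x : M.Rr | ∃ f g, x = M.brR f g},
        (x : P) = y) ⟨0, zero_mem _, rfl⟩ ?_ f.2 fun e he h0 => ?_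
      · rintro _ _ ⟨a, ha, rfl⟩ ⟨b, hb, rfl⟩
        exact ⟨a + b, add_mem ha hb, rfl⟩
      by_cases h : e 0 = e 1
      · have h1 : e = ev (e 0) (e 0) := fin2_ext (by simp) (by simp [h])
        have h2 : N ≤ e 0 := not_lt.1 fun l => h0 (h1 ▸ hf' _ l)
        have o1 : M.ok (ev 0 (N + 1)) := by
          simp only [ok, ev_zero, ev_one, Nat.le_zero, card_eq_zero]
          refine eq_empty_of_forall_notMem fun t ht => (mem_Z.1 ht).2 ?_
          simpa using hK _ (mem_Z.1 ht).1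
        have o2 : M.ok (ev (e 0 + 1) (e 0 - N)) := by
          have := card_Z_neg (M := M) (j := N + 1) (by omega) hK
          simp only [ok, ev_zero, ev_one]
          rw [show ((e 0 - N : ℕ) : ℤ) - (e 0 + 1 : ℕ) = -((N + 1 : ℕ) : ℤ) by omega]
          omega
        refine ⟨_, Submodule.subset_span ⟨⟨_, mon_mem o1 1⟩,
          ⟨_, mon_mem o2 (-coeff e (f : P) / ((N + 1) * (e 0 + 1)))⟩, rfl⟩, ?_⟩
        rw [coe_brR, brP_mon _ _ e _ _ (by simp) (by simp; omega)]
        congr 1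
        have n1 : ((N : ℂ) + 1) ≠ 0 := by exact_mod_cast Nat.succ_ne_zero N
        have n2 : ((e 0 : ℂ) + 1) ≠ 0 := by exact_mod_cast Nat.succ_ne_zero (e 0)
        simp only [ev_zero, ev_one]
        push_cast
        field_simp
        ring
      · refine ⟨_, Submodule.subset_span ⟨⟨_, mon_mem (ok_diag 1) 1⟩,
          ⟨_, mon_mem he (coeff e (f : P) / (e 1 - e 0))⟩, rfl⟩, ?_⟩
        rw [coe_brR, brP_mon _ _ e _ _ (by simp; omega) (by simp; omega)]
        congr 1
        have n1 : ((e 1 : ℂ) - e 0) ≠ 0 := sub_ne_zero.2 (by exact_mod_cast Ne.symm h)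
        simp only [ev_zero, ev_one]
        push_cast
        field_simp
    exact Subtype.ext e ▸ hx
  exact ⟨(Submodule.quotEquivOfEq _ _ hk).trans (φ.quotKerEquivOfSurjective hs)⟩

end Ma

/-- The semigroup generated by `N + 1` and `N + 2`. -/
def curve (N : ℕ) : Ma where
  S t := 0 ≤ t ∧ t % (N + 1) ≤ t / (N + 1)
  c := (N + 1) * (N + 1)
  h0 _ h := h.1
  hc t h := by
    have h1 : (0 : ℤ) < N + 1 := by omega
    have h2 := Int.emod_lt_of_pos t h1
    have h3 : (N + 1 : ℤ) ≤ t / (N + 1) := (Int.le_ediv_iff_mul_le h1).2 (by exact_mod_cast h)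
    exact ⟨le_trans (by positivity) h, by omega⟩

theorem curve_add (N : ℕ) (t : ℤ) (h : (curve N).S t) : (curve N).S (t + (N + 1 : ℕ)) := by
  have h1 : (N + 1 : ℤ) ≠ 0 := by omega
  refine ⟨by have := h.1; omega, ?_⟩
  have h2 := h.2
  push_cast
  have h3 := Int.add_mul_ediv_left t 1 h1
  rw [mul_one] at h3
  rw [Int.add_emod_right, h3]
  omega

theorem curve_mem (N : ℕ) (i r : ℤ) (hi : 0 ≤ i) (h0 : 0 ≤ r) (hr : r < N + 1) :
    (curve N).S (r + (N + 1) * i) ↔ r ≤ i := by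
  have h1 : (N + 1 : ℤ) ≠ 0 := by omega
  change 0 ≤ _ ∧ _ ≤ _ ↔ _
  rw [Int.add_mul_emod_self_left, Int.add_mul_ediv_left _ _ h1, Int.emod_eq_of_lt h0 hr,
    Int.ediv_eq_zero_of_lt h0 hr, zero_add]
  exact and_iff_right (by positivity)

theorem curve_low (N j : ℕ) (hj : 0 < j) : N + 1 ≤ ((curve N).Z j).card + j := by
  have := card_le_card_of_injOn (s := Ico (0 : ℤ) (N + 1 - j)) (t := (curve N).Z j)
    (fun i => i + j + (N + 1) * i) (fun i hi => by
      have hi := mem_Ico.1 (mem_coe.1 hi)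
      refine mem_coe.2 (Ma.mem_Z.2 ⟨?_, ?_⟩)
      · rw [show i + j + (N + 1) * i - j = i + (N + 1) * i by ring,
          curve_mem N i i hi.1 hi.1 (by omega)]
      · rw [curve_mem N i (i + j) hi.1 (by omega) (by omega)]
        omega)
    (fun a _ b _ e => by
      have h1 : (N + 2 : ℤ) * a = (N + 2) * b := by linear_combination e
      exact mul_left_cancel₀ (by omega) h1)
  rw [Int.card_Ico] at this
  omega

end Pool.Agent.Lib.MP_b538eb_ag
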